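import Mathlib

/-!
Finite families of planar strips: sections, and the intersection of a set that is well distributed
at small scales with a finite union of intervals.
-/

set_option autoImplicit false

open MeasureTheory Set

namespace Pool.Agent.R230.CK

/-- the planar strip of all `(x, y)` with `a + s x ≤ y ≤ b + s x` -/
structure Strip where
  s : ℝ
  a : ℝ
  b : ℝ

/-- the section of a strip at `x` -/
def Strip.sec (q : Strip) (x : ℝ) : Set ℝ := Icc (q.a + q.s * x) (q.b + q.s * x)

/-- the section at `x` of the union of a finite family of strips -/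
def sec (F : Finset Strip) (x : ℝ) : Set ℝ := ⋃ q ∈ F, q.sec x

/-- a strip is inside another one over `[0,2]` -/
def Inside (q q0 : Strip) : Prop :=
  ∀ x ∈ Icc (0 : ℝ) 2, q0.a + q0.s * x ≤ q.a + q.s * x ∧ q.b + q.s * x ≤ q0.b + q0.s * x

lemma mem_sec {F : Finset Strip} {x y : ℝ} :
    y ∈ sec F x ↔ ∃ q ∈ F, q.a + q.s * x ≤ y ∧ y ≤ q.b + q.s * x := by
  simp only [sec, mem_iUnion, exists_prop]
  rfl

lemma isCompact_sec (F : Finset Strip) (x : ℝ) : IsCompact (sec F x) :=
  F.isCompact_biUnion fun _ _ => isCompact_Icc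

lemma measurableSet_sec (F : Finset Strip) (x : ℝ) : MeasurableSet (sec F x) :=
  (isCompact_sec F x).measurableSet

lemma sec_lt_top (F : Finset Strip) (x : ℝ) : volume (sec F x) < ⊤ := (isCompact_sec F x).measure_lt_top

open Classical in
lemma sec_union (F G : Finset Strip) (x : ℝ) : sec (F ∪ G) x = sec F x ∪ sec G x := by
  unfold sec
  rw [Finset.set_biUnion_union]

open Classical in
lemma sec_insert (q : Strip) (F : Finset Strip) (x : ℝ) :
    sec (insert q F) x = q.sec x ∪ sec F x := by
  unfold sec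
  rw [Finset.set_biUnion_insert]

lemma sec_empty (x : ℝ) : sec ∅ x = ∅ := by
  simp [sec]

/-- real valued Lebesgue measure -/
noncomputable def mu (A : Set ℝ) : ℝ := volume.real A

lemma mu_nonneg (A : Set ℝ) : 0 ≤ mu A := measureReal_nonneg

lemma mu_mono {A B : Set ℝ} (h : A ⊆ B) (hB : volume B < ⊤) : mu A ≤ mu B :=
  measureReal_mono h hB.ne

lemma mu_Icc {a b : ℝ} (h : a ≤ b) : mu (Icc a b) = b - a := by
  unfold mu
  rw [Real.volume_real_Icc_of_le h]

lemma mu_empty : mu ∅ = 0 := by simp [mu]

lemma lt_top_of_subset {A B : Set ℝ} (h : A ⊆ B) (hB : volume B < ⊤) : volume A < ⊤ :=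
  (measure_mono h).trans_lt hB

lemma Icc_lt_top (a b : ℝ) : volume (Icc a b) < ⊤ := by
  rw [Real.volume_Icc]
  exact ENNReal.ofReal_lt_top

/-- inclusion and exclusion -/
lemma mu_union {A B : Set ℝ} (hB : MeasurableSet B) (hA : volume A < ⊤) (hB' : volume B < ⊤) :
    mu (A ∪ B) = mu A + mu B - mu (A ∩ B) := by
  unfold mu
  have := measureReal_union_add_inter (μ := volume) (s := A) hB hA.ne hB'.ne
  linarith

lemma mu_union_le (A B : Set ℝ) :
    mu (A ∪ B) ≤ mu A + mu B := measureReal_union_le A B

open Classical in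
/-- the set `V` has density `v` in all intervals inside `[α, β]` up to `ε`; then it has this
density in finite unions of intervals -/
lemma dec {V : Set ℝ} (hV : MeasurableSet V) {v α β ε : ℝ} (hε : 0 ≤ ε)
    (h : ∀ c d, α ≤ c → c ≤ d → d ≤ β → |mu (V ∩ Icc c d) - v * (d - c)| ≤ ε)
    (x : ℝ) (F : Finset Strip) : ∀ c d, α ≤ c → d ≤ β →
    |mu (V ∩ (sec F x ∩ Icc c d)) - v * mu (sec F x ∩ Icc c d)| ≤ (2 ^ F.card - 1) * ε := by
  induction F using Finset.induction_on with
  | empty =>
    intro c d _ _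
    simp [sec_empty, mu_empty]
  | insert q F hq ih =>
    intro c d hc hd
    set c' := max c (q.a + q.s * x) with hc'
    set d' := min d (q.b + q.s * x) with hd'
    have hA : q.sec x ∩ Icc c d = Icc c' d' := by
      unfold Strip.sec
      rw [Icc_inter_Icc, sup_comm, inf_comm]
    have e1 : sec (insert q F) x ∩ Icc c d = Icc c' d' ∪ (sec F x ∩ Icc c d) := by
      rw [sec_insert, union_inter_distrib_right, hA]
    have e2 : Icc c' d' ∩ (sec F x ∩ Icc c d) = sec F x ∩ Icc c' d' := by
      rw [← inter_assoc, inter_comm (Icc c' d') (sec F x), inter_assoc, Icc_inter_Icc]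
      congr 2
      · exact max_eq_left (le_max_left _ _)
      · exact min_eq_left (min_le_left _ _)
    have hfin1 : volume (Icc c' d') < ⊤ := Icc_lt_top _ _
    have hfin2 : volume (sec F x ∩ Icc c d) < ⊤ := lt_top_of_subset inter_subset_left (sec_lt_top F x)
    have hm2 : MeasurableSet (sec F x ∩ Icc c d) := (measurableSet_sec F x).inter measurableSet_Icc
    have f1 : mu (sec (insert q F) x ∩ Icc c d) =
        mu (Icc c' d') + mu (sec F x ∩ Icc c d) - mu (sec F x ∩ Icc c' d') := by
      rw [e1, mu_union hm2 hfin1 hfin2, e2]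
    have f2 : mu (V ∩ (sec (insert q F) x ∩ Icc c d)) =
        mu (V ∩ Icc c' d') + mu (V ∩ (sec F x ∩ Icc c d)) - mu (V ∩ (sec F x ∩ Icc c' d')) := by
      rw [e1, inter_union_distrib_left, mu_union (hV.inter hm2)
        (lt_top_of_subset inter_subset_right hfin1) (lt_top_of_subset inter_subset_right hfin2),
        ← inter_inter_distrib_left, e2]
    have g1 : |mu (V ∩ Icc c' d') - v * mu (Icc c' d')| ≤ ε := by
      rcases le_or_gt c' d' with hcd | hcd
      · rw [mu_Icc hcd]
        exact h c' d' (hc.trans (le_max_left _ _)) hcd ((min_le_left _ _).trans hd)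
      · rw [Icc_eq_empty (not_le.2 hcd)]
        simp [mu_empty, hε]
    have g2 := ih c d hc hd
    have g3 := ih c' d' (hc.trans (le_max_left _ _)) ((min_le_left _ _).trans hd)
    rw [f1, f2, Finset.card_insert_of_notMem hq]
    rw [abs_le] at g1 g2 g3 ⊢
    have hp : (2 : ℝ) ^ (F.card + 1) = 2 * 2 ^ F.card := by ring
    rw [hp]
    constructor
    · nlinarith [g1.1, g2.1, g3.2]
    · nlinarith [g1.2, g2.2, g3.1]

end Pool.Agent.R230.CK
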