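import Mathlib

/-!
Two facts on the middle-thirds Cantor set: left endpoints of the basic intervals, and every point is
a limit of others.
-/

set_option autoImplicit false

open Set

namespace Pool.Agent.R230.CK

lemma div_three_mem {t : ℝ} (h : t ∈ cantorSet) : t / 3 ∈ cantorSet := by
  rw [cantorSet_eq_union_halves]
  exact Or.inl ⟨t, h, rfl⟩

lemma two_add_div_three_mem {t : ℝ} (h : t ∈ cantorSet) : (2 + t) / 3 ∈ cantorSet := by
  rw [cantorSet_eq_union_halves]
  exact Or.inr ⟨t, h, rfl⟩

lemma two_thirds_mem : (2 / 3 : ℝ) ∈ cantorSet := by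
  have := two_add_div_three_mem zero_mem_cantorSet
  simpa using this

/-- left endpoints of the basic intervals of the Cantor set -/
lemma exists_left (n : ℕ) : ∀ s ∈ cantorSet, ∃ s' : ℝ, |s - s'| ≤ (1 / 3) ^ n ∧
    ∀ c ∈ cantorSet, s' + (1 / 3) ^ n * c ∈ cantorSet := by
  induction n with
  | zero =>
    intro s hs
    refine ⟨0, ?_, ?_⟩
    · have := cantorSet_subset_unitInterval hs
      rw [sub_zero, pow_zero, abs_of_nonneg this.1]
      exact this.2
    · intro c hc
      simpa using hc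
  | succ n ih =>
    intro s hs
    have hs' := hs
    rw [cantorSet_eq_union_halves] at hs'
    rcases hs' with ⟨t, ht, rfl⟩ | ⟨t, ht, rfl⟩
    · obtain ⟨t', h1, h2⟩ := ih t ht
      refine ⟨t' / 3, ?_, fun c hc => ?_⟩
      · have : t / 3 - t' / 3 = (t - t') / 3 := by ring
        change |t / 3 - t' / 3| ≤ _
        rw [this, abs_div, abs_of_pos (by norm_num : (0 : ℝ) < 3), pow_succ]
        linarith
      · have := div_three_mem (h2 c hc)
        convert this using 1
        ring
    · obtain ⟨t', h1, h2⟩ := ih t ht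
      refine ⟨(2 + t') / 3, ?_, fun c hc => ?_⟩
      · have : (2 + t) / 3 - (2 + t') / 3 = (t - t') / 3 := by ring
        change |(2 + t) / 3 - (2 + t') / 3| ≤ _
        rw [this, abs_div, abs_of_pos (by norm_num : (0 : ℝ) < 3), pow_succ]
        linarith
      · have := two_add_div_three_mem (h2 c hc)
        convert this using 1
        ring

lemma pow_mem (k : ℕ) : (2 / 3 : ℝ) / 3 ^ k ∈ cantorSet := by
  induction k with
  | zero => simpa using two_thirds_mem
  | succ k ih =>
    have := div_three_mem ih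
    convert this using 1
    field_simp
    ring

lemma infinite_near {s : ℝ} (hs : s ∈ cantorSet) {δ : ℝ} (hδ : 0 < δ) :
    {t : ℝ | t ∈ cantorSet ∧ |t - s| ≤ δ}.Infinite := by
  obtain ⟨n, hn⟩ : ∃ n : ℕ, (1 / 3 : ℝ) ^ n < δ / 2 := exists_pow_lt_of_lt_one (by positivity) (by norm_num)
  obtain ⟨s', h1, h2⟩ := exists_left n s hs
  have h3 : (0 : ℝ) < (1 / 3) ^ n := by positivity
  refine Set.infinite_of_injective_forall_mem (f := fun k : ℕ => s' + (1 / 3) ^ n * ((2 / 3 : ℝ) / 3 ^ k))
    ?_ ?_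
  · intro i j hij
    simp only [add_right_inj] at hij
    have h4 := mul_left_cancel₀ h3.ne' hij
    have h5 : (3 : ℝ) ^ i = 3 ^ j := by
      have hi : (3 : ℝ) ^ i ≠ 0 := by positivity
      have hj : (3 : ℝ) ^ j ≠ 0 := by positivity
      field_simp at h4
      linarith
    exact pow_right_injective₀ (by norm_num) (by norm_num) h5
  · intro k
    refine ⟨h2 _ (pow_mem k), ?_⟩
    have h4 := cantorSet_subset_unitInterval (pow_mem k)
    have h5 : (1 / 3 : ℝ) ^ n * ((2 / 3 : ℝ) / 3 ^ k) ≤ (1 / 3) ^ n := by nlinarith [h4.1, h4.2]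
    have h6 : 0 ≤ (1 / 3 : ℝ) ^ n * ((2 / 3 : ℝ) / 3 ^ k) := mul_nonneg h3.le h4.1
    rw [abs_le] at h1 ⊢
    constructor <;> linarith [h1.1, h1.2]

end Pool.Agent.R230.CK
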