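import Mathlib
import Pool.Agent.R230.CK.Basic
import Pool.Agent.R230.CK.Cantor

/-!
Realizable density profiles. A profile `u` is realizable (with focus `x0`) if every strip with slope
in the Cantor set contains a finite family of thin strips, with slopes in the Cantor set, whose
union has at every `x` right of `x0` the local density `u x` in the strip. The constant `1` is
realizable, and with `u` also `u - (x - x0) / 4 * u ^ 2`.
-/

set_option autoImplicit false

open MeasureTheory Set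

namespace Pool.Agent.R230.CK

/-- realizable profile -/
def RealP (x0 : ℝ) (u : ℝ → ℝ) : Prop :=
  ∀ q0 : Strip, q0.s ∈ cantorSet → q0.a < q0.b → ∀ ε > 0, ∃ F : Finset Strip,
    (∀ q ∈ F, q.s ∈ cantorSet ∧ |q.s - q0.s| ≤ ε ∧ q.a < q.b ∧ q.b - q.a ≤ ε ∧ Inside q q0) ∧
    ∀ x ∈ Icc x0 2, ∀ c d, q0.a + q0.s * x ≤ c → c ≤ d → d ≤ q0.b + q0.s * x →
      |mu (sec F x ∩ Icc c d) - u x * (d - c)| ≤ ε

lemma sec_subset {F : Finset Strip} {q0 : Strip} (h : ∀ q ∈ F, Inside q q0) {x : ℝ}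
    (hx : x ∈ Icc (0 : ℝ) 2) : sec F x ⊆ Icc (q0.a + q0.s * x) (q0.b + q0.s * x) := by
  intro y hy
  obtain ⟨q, hq, h1, h2⟩ := mem_sec.1 hy
  have := h q hq x hx
  exact ⟨this.1.trans h1, h2.trans this.2⟩

lemma mu_of_subset_singleton {A : Set ℝ} {p : ℝ} (h : A ⊆ {p}) : mu A = 0 := by
  unfold mu
  rw [measureReal_eq_zero_iff (ne_of_lt (lt_of_le_of_lt (measure_mono h) (by simp)))]
  exact measure_mono_null h (by simp)

lemma mu_union_of_inter {A B : Set ℝ} {p : ℝ} (h : A ∩ B ⊆ {p}) (hB : MeasurableSet B)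
    (hA : volume A < ⊤) (hB' : volume B < ⊤) : mu (A ∪ B) = mu A + mu B := by
  rw [mu_union hB hA hB', mu_of_subset_singleton h, sub_zero]

open Classical in
lemma real_one (x0 : ℝ) : RealP x0 (fun _ => 1) := by
  intro q0 hs hab ε hε
  have hlen : 0 < q0.b - q0.a := sub_pos.2 hab
  set n : ℕ := ⌈(q0.b - q0.a) / ε⌉₊ + 1 with hn
  have hn0 : (0 : ℝ) < n := by exact_mod_cast Nat.succ_pos _
  have hn1 : (q0.b - q0.a) / ε ≤ n := by
    have := Nat.le_ceil ((q0.b - q0.a) / ε)
    rw [hn]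
    push_cast
    linarith
  set w : ℝ := (q0.b - q0.a) / n with hw
  have hw0 : 0 < w := div_pos hlen hn0
  have hwε : w ≤ ε := by
    rw [hw, div_le_iff₀ hn0]
    rw [div_le_iff₀ hε] at hn1
    linarith
  have hnw : n * w = q0.b - q0.a := by
    rw [hw]
    field_simp
  refine ⟨(Finset.range n).image (fun k : ℕ => ⟨q0.s, q0.a + k * w, q0.a + (k + 1) * w⟩), ?_, ?_⟩
  · intro q hq
    obtain ⟨k, hk, rfl⟩ := Finset.mem_image.1 hq
    have hk' : (k : ℝ) + 1 ≤ n := by exact_mod_cast Finset.mem_range.1 hk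
    refine ⟨hs, by simp [hε.le], ?_, ?_, ?_⟩
    · change q0.a + k * w < q0.a + (k + 1) * w
      linarith
    · change q0.a + (k + 1) * w - (q0.a + k * w) ≤ ε
      linarith
    · intro x _
      change q0.a + q0.s * x ≤ q0.a + k * w + q0.s * x ∧ q0.a + (k + 1) * w + q0.s * x ≤ q0.b + q0.s * x
      constructor
      · have : 0 ≤ (k : ℝ) * w := by positivity
        linarith
      · have : ((k : ℝ) + 1) * w ≤ n * w := mul_le_mul_of_nonneg_right hk' hw0.le
        linarith
  · intro x _ c d hc hcd hd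
    have hsub : Icc c d ⊆ sec ((Finset.range n).image
        (fun k : ℕ => (⟨q0.s, q0.a + k * w, q0.a + (k + 1) * w⟩ : Strip))) x := by
      intro y hy
      set z := y - (q0.a + q0.s * x) with hz
      have hz0 : 0 ≤ z := by
        have := hy.1
        linarith
      have hz1 : z ≤ n * w := by
        have := hy.2
        linarith
      rcases hz1.lt_or_eq with hlt | heq
      · refine mem_sec.2 ⟨_, Finset.mem_image.2 ⟨⌊z / w⌋₊, ?_, rfl⟩, ?_, ?_⟩
        · rw [Finset.mem_range, Nat.floor_lt (div_nonneg hz0 hw0.le), div_lt_iff₀ hw0]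
          exact hlt
        · have := Nat.floor_le (div_nonneg hz0 hw0.le)
          rw [le_div_iff₀ hw0] at this
          change q0.a + (⌊z / w⌋₊ : ℝ) * w + q0.s * x ≤ y
          linarith
        · have := Nat.lt_floor_add_one (z / w)
          rw [div_lt_iff₀ hw0] at this
          change y ≤ q0.a + ((⌊z / w⌋₊ : ℝ) + 1) * w + q0.s * x
          linarith
      · refine mem_sec.2 ⟨_, Finset.mem_image.2 ⟨n - 1, ?_, rfl⟩, ?_, ?_⟩
        · rw [Finset.mem_range]
          omega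
        · have h1 : ((n - 1 : ℕ) : ℝ) = n - 1 := by
            rw [Nat.cast_sub (by omega)]
            simp
          change q0.a + ((n - 1 : ℕ) : ℝ) * w + q0.s * x ≤ y
          rw [h1]
          nlinarith
        · have h1 : ((n - 1 : ℕ) : ℝ) = n - 1 := by
            rw [Nat.cast_sub (by omega)]
            simp
          change y ≤ q0.a + (((n - 1 : ℕ) : ℝ) + 1) * w + q0.s * x
          rw [h1]
          linarith
    rw [inter_eq_right.2 hsub, mu_Icc hcd]
    simp [hε.le]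

open Classical in
lemma block {x0 : ℝ} {u : ℝ → ℝ} (hx0 : 0 ≤ x0) (hx0' : x0 ≤ 1 / 8)
    (hu : ∀ x ∈ Icc x0 2, 0 ≤ u x ∧ u x ≤ 1) (h : RealP x0 u) {s' σ : ℝ} (hs' : s' ∈ cantorSet)
    (hσs : s' + σ ∈ cantorSet) (hσ : 0 < σ) (α : ℝ) {ε : ℝ} (hε : 0 < ε) :
    ∃ F : Finset Strip, (∀ q ∈ F, q.s ∈ cantorSet ∧ |q.s - s'| ≤ σ + ε ∧ q.a < q.b ∧ q.b - q.a ≤ ε ∧
      (∀ x ∈ Icc (0 : ℝ) 2, α - σ / 8 + s' * x ≤ q.a + q.s * x ∧
        q.b + q.s * x ≤ α + 4 * σ + s' * x) ∧ ∀ x ∈ Icc x0 2, α + s' * x ≤ q.a + q.s * x) ∧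
      ∀ x ∈ Icc x0 2, |mu (sec F x) - (u x - (x - x0) / 4 * (u x) ^ 2) * (4 * σ)| ≤ ε := by
  obtain ⟨F1, hF1, hm1⟩ := h ⟨s' + σ, α - σ * x0, α - σ * x0 + 2 * σ⟩ hσs
    (show α - σ * x0 < α - σ * x0 + 2 * σ by linarith) (ε / 4) (by positivity)
  set e2 : ℝ := ε / (4 * 2 ^ F1.card) with he2
  have h2n : (1 : ℝ) ≤ 2 ^ F1.card := one_le_pow₀ (by norm_num)
  have he2' : 0 < e2 := by positivity
  have he22 : e2 * 2 ^ F1.card = ε / 4 := by
    rw [he2]
    field_simp
  have he24 : e2 ≤ ε / 4 := by nlinarith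
  obtain ⟨F2, hF2, hm2⟩ := h ⟨s', α + 2 * σ, α + 4 * σ⟩ hs'
    (show α + 2 * σ < α + 4 * σ by linarith) e2 he2'
  simp only at hF1 hm1 hF2 hm2
  refine ⟨F1 ∪ F2, ?_, ?_⟩
  · intro q hq
    rcases Finset.mem_union.1 hq with hq | hq
    · obtain ⟨h1, h2, h3, h4, h5⟩ := hF1 q hq
      refine ⟨h1, ?_, h3, by linarith, ?_, ?_⟩
      · have : q.s - s' = (q.s - (s' + σ)) + σ := by ring
        rw [this]
        refine (abs_add_le _ _).trans ?_
        rw [abs_of_pos hσ]
        linarith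
      · intro x hx
        obtain ⟨h6, h7⟩ := h5 x hx
        simp only at h6 h7
        constructor
        · nlinarith [mul_nonneg hσ.le hx.1]
        · nlinarith [mul_le_mul_of_nonneg_left hx.2 hσ.le, mul_nonneg hσ.le hx0]
      · intro x hx
        obtain ⟨h6, h7⟩ := h5 x ⟨hx0.trans hx.1, hx.2⟩
        simp only at h6 h7
        nlinarith [mul_le_mul_of_nonneg_left hx.1 hσ.le]
    · obtain ⟨h1, h2, h3, h4, h5⟩ := hF2 q hq
      refine ⟨h1, ?_, h3, by linarith, ?_, ?_⟩
      · linarith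
      · intro x hx
        obtain ⟨h6, h7⟩ := h5 x hx
        simp only at h6 h7
        constructor <;> linarith
      · intro x hx
        obtain ⟨h6, h7⟩ := h5 x ⟨hx0.trans hx.1, hx.2⟩
        simp only at h6 h7
        linarith
  · intro x hx
    have hx' : x ∈ Icc (0 : ℝ) 2 := ⟨hx0.trans hx.1, hx.2⟩
    obtain ⟨hu0, hu1⟩ := hu x hx
    set δ := σ * (x - x0) with hδ
    have hδ0 : 0 ≤ δ := mul_nonneg hσ.le (sub_nonneg.2 hx.1)
    have hδ2 : δ ≤ 2 * σ := by nlinarith [hx.2]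
    have s1 : sec F1 x ⊆ Icc (α + s' * x + δ) (α + s' * x + δ + 2 * σ) := by
      have := sec_subset (fun q hq => (hF1 q hq).2.2.2.2) hx'
      simp only at this
      convert this using 2 <;> rw [hδ] <;> ring
    have s2 : sec F2 x ⊆ Icc (α + 2 * σ + s' * x) (α + 4 * σ + s' * x) :=
      sec_subset (fun q hq => (hF2 q hq).2.2.2.2) hx'
    have m1 : |mu (sec F1 x) - u x * (2 * σ)| ≤ ε / 4 := by
      have := hm1 x hx (α + s' * x + δ) (α + s' * x + δ + 2 * σ) (by rw [hδ]; linarith)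
        (by linarith) (by rw [hδ]; linarith)
      rw [inter_eq_left.2 s1] at this
      convert this using 3
      ring
    have m2 : |mu (sec F2 x) - u x * (2 * σ)| ≤ e2 := by
      have := hm2 x hx (α + 2 * σ + s' * x) (α + 4 * σ + s' * x) le_rfl (by linarith) le_rfl
      rw [inter_eq_left.2 s2] at this
      convert this using 3
      ring
    have m3 : |mu (sec F1 x ∩ Icc (α + 2 * σ + s' * x) (α + 2 * σ + s' * x + δ)) - u x * δ| ≤ ε / 4 := by
      have hd2 : σ * x - σ * x0 ≤ 2 * σ := by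
        rw [hδ] at hδ2
        linarith
      have := hm1 x hx (α + 2 * σ + s' * x) (α + 2 * σ + s' * x + δ) (by linarith)
        (by linarith) (by rw [hδ]; linarith)
      convert this using 3
      ring
    have m4 := dec (measurableSet_sec F2 x) he2'.le (hm2 x hx) x F1 (α + 2 * σ + s' * x)
      (α + 2 * σ + s' * x + δ) le_rfl (by linarith)
    have e12 : sec F1 x ∩ sec F2 x =
        sec F2 x ∩ (sec F1 x ∩ Icc (α + 2 * σ + s' * x) (α + 2 * σ + s' * x + δ)) := by
      ext y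
      constructor
      · rintro ⟨hy1, hy2⟩
        have g1 := s1 hy1
        have g2 := s2 hy2
        exact ⟨hy2, hy1, g2.1, by linarith [g1.2]⟩
      · rintro ⟨hy2, hy1, _⟩
        exact ⟨hy1, hy2⟩
    rw [sec_union, mu_union (measurableSet_sec F2 x) (sec_lt_top F1 x) (sec_lt_top F2 x), e12]
    set A := mu (sec F1 x)
    set B := mu (sec F2 x)
    set C := mu (sec F1 x ∩ Icc (α + 2 * σ + s' * x) (α + 2 * σ + s' * x + δ))
    set D := mu (sec F2 x ∩ (sec F1 x ∩ Icc (α + 2 * σ + s' * x) (α + 2 * σ + s' * x + δ)))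
    have m4' : |D - u x * C| ≤ ε / 4 := m4.trans (by nlinarith)
    have m3' : |u x * C - u x * (u x * δ)| ≤ ε / 4 := by
      rw [← mul_sub, abs_mul, abs_of_nonneg hu0]
      calc u x * |C - u x * δ| ≤ 1 * |C - u x * δ| := mul_le_mul_of_nonneg_right hu1 (abs_nonneg _)
        _ ≤ ε / 4 := by rw [one_mul]; exact m3
    have key : (u x - (x - x0) / 4 * (u x) ^ 2) * (4 * σ) =
        u x * (2 * σ) + u x * (2 * σ) - u x * (u x * δ) := by
      rw [hδ]
      ring
    rw [key]
    rw [abs_le] at m1 m2 m3' m4' ⊢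
    constructor <;> linarith [m1.1, m1.2, m2.1, m2.2, m3'.1, m3'.2, m4'.1, m4'.2]

open Classical in
lemma tiles {x0 : ℝ} {w : ℝ → ℝ} (hx0 : 0 ≤ x0) (hw : ∀ x ∈ Icc x0 2, 0 ≤ w x ∧ w x ≤ 1)
    {s' σ : ℝ} (hσ : 0 < σ) {e : ℝ} (he : 0 < e)
    (hB : ∀ α : ℝ, ∃ F : Finset Strip, (∀ q ∈ F, q.s ∈ cantorSet ∧ |q.s - s'| ≤ σ + e ∧ q.a < q.b ∧
      q.b - q.a ≤ e ∧ (∀ x ∈ Icc (0 : ℝ) 2, α - σ / 8 + s' * x ≤ q.a + q.s * x ∧
        q.b + q.s * x ≤ α + 4 * σ + s' * x) ∧ ∀ x ∈ Icc x0 2, α + s' * x ≤ q.a + q.s * x) ∧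
      ∀ x ∈ Icc x0 2, |mu (sec F x) - w x * (4 * σ)| ≤ e) (α : ℝ) (N : ℕ) :
    ∃ F : Finset Strip, (∀ q ∈ F, q.s ∈ cantorSet ∧ |q.s - s'| ≤ σ + e ∧ q.a < q.b ∧
      q.b - q.a ≤ e ∧ (∀ x ∈ Icc (0 : ℝ) 2, α - σ / 8 + s' * x ≤ q.a + q.s * x ∧
        q.b + q.s * x ≤ α + N * (4 * σ) + s' * x) ∧ ∀ x ∈ Icc x0 2, α + s' * x ≤ q.a + q.s * x) ∧
      ∀ x ∈ Icc x0 2, |mu (sec F x) - w x * (N * (4 * σ))| ≤ N * e ∧
        ∀ t ∈ Icc (α + s' * x) (α + N * (4 * σ) + s' * x),
          |mu (sec F x ∩ Iic t) - w x * (t - (α + s' * x))| ≤ N * e + 4 * σ := by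
  induction N with
  | zero =>
    refine ⟨∅, by simp, ?_⟩
    intro x hx
    refine ⟨by simp [sec_empty, mu_empty], ?_⟩
    intro t ht
    have h1 : t = α + s' * x := by
      have := ht.1
      have := ht.2
      push_cast at *
      linarith
    rw [h1, sec_empty, empty_inter, mu_empty]
    simp
    linarith
  | succ N ih =>
    obtain ⟨F, hF, hmF⟩ := ih
    obtain ⟨G, hG, hmG⟩ := hB (α + N * (4 * σ))
    have hN0 : (0 : ℝ) ≤ N * (4 * σ) := by positivity
    refine ⟨F ∪ G, ?_, ?_⟩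
    · intro q hq
      rcases Finset.mem_union.1 hq with hq | hq
      · obtain ⟨h1, h2, h3, h4, h5, h6⟩ := hF q hq
        refine ⟨h1, h2, h3, h4, fun x hx => ⟨(h5 x hx).1, (h5 x hx).2.trans ?_⟩, h6⟩
        push_cast
        linarith
      · obtain ⟨h1, h2, h3, h4, h5, h6⟩ := hG q hq
        refine ⟨h1, h2, h3, h4, fun x hx => ⟨le_trans ?_ (h5 x hx).1, (h5 x hx).2.trans ?_⟩,
          fun x hx => le_trans ?_ (h6 x hx)⟩
        · linarith
        · push_cast
          linarith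
        · linarith
    · intro x hx
      have hx' : x ∈ Icc (0 : ℝ) 2 := ⟨hx0.trans hx.1, hx.2⟩
      obtain ⟨hw0, hw1⟩ := hw x hx
      obtain ⟨f1, f2⟩ := hmF x hx
      have g1 := hmG x hx
      have sF : sec F x ⊆ Icc (α + s' * x) (α + N * (4 * σ) + s' * x) := by
        intro y hy
        obtain ⟨q, hq, h1, h2⟩ := mem_sec.1 hy
        obtain ⟨_, _, _, _, h5, h6⟩ := hF q hq
        exact ⟨(h6 x hx).trans h1, h2.trans (h5 x hx').2⟩
      have sG : sec G x ⊆ Icc (α + N * (4 * σ) + s' * x) (α + N * (4 * σ) + 4 * σ + s' * x) := by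
        intro y hy
        obtain ⟨q, hq, h1, h2⟩ := mem_sec.1 hy
        obtain ⟨_, _, _, _, h5, h6⟩ := hG q hq
        exact ⟨(h6 x hx).trans h1, h2.trans (h5 x hx').2⟩
      have hFG : sec F x ∩ sec G x ⊆ {α + N * (4 * σ) + s' * x} := by
        rintro y ⟨h1, h2⟩
        exact le_antisymm (sF h1).2 (sG h2).1
      refine ⟨?_, ?_⟩
      · rw [sec_union, mu_union_of_inter hFG (measurableSet_sec G x) (sec_lt_top F x) (sec_lt_top G x)]
        have : w x * (((N + 1 : ℕ) : ℝ) * (4 * σ)) = w x * (N * (4 * σ)) + w x * (4 * σ) := by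
          push_cast
          ring
        rw [this]
        push_cast
        rw [abs_le] at f1 g1 ⊢
        constructor <;> linarith [f1.1, f1.2, g1.1, g1.2]
      · intro t ht
        have hinter : (sec F x ∩ Iic t) ∩ (sec G x ∩ Iic t) ⊆ {α + N * (4 * σ) + s' * x} := by
          rintro y ⟨h1, h2⟩
          exact hFG ⟨h1.1, h2.1⟩
        have hm : MeasurableSet (sec G x ∩ Iic t) := (measurableSet_sec G x).inter measurableSet_Iic
        have hsplit : mu (sec (F ∪ G) x ∩ Iic t) = mu (sec F x ∩ Iic t) + mu (sec G x ∩ Iic t) := by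
          rw [sec_union, union_inter_distrib_right, mu_union_of_inter hinter hm
            (lt_top_of_subset inter_subset_left (sec_lt_top F x))
            (lt_top_of_subset inter_subset_left (sec_lt_top G x))]
        rw [hsplit]
        push_cast
        rcases le_total t (α + N * (4 * σ) + s' * x) with hcase | hcase
        · have h0 : mu (sec G x ∩ Iic t) = 0 := by
            apply mu_of_subset_singleton (p := α + N * (4 * σ) + s' * x)
            rintro y ⟨h1, h2⟩
            exact le_antisymm (le_trans h2 hcase) (sG h1).1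
          rw [h0, add_zero]
          have := f2 t ⟨ht.1, hcase⟩
          refine this.trans ?_
          linarith
        · have h0 : sec F x ∩ Iic t = sec F x := by
            apply inter_eq_left.2
            intro y hy
            exact (sF hy).2.trans hcase
          have h1 : mu (sec G x ∩ Iic t) ≤ t - (α + N * (4 * σ) + s' * x) := by
            rw [← mu_Icc hcase]
            apply mu_mono _ (Icc_lt_top _ _)
            rintro y ⟨h1, h2⟩
            exact ⟨(sG h1).1, h2⟩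
          have h2 := mu_nonneg (sec G x ∩ Iic t)
          rw [h0]
          have ht2 : t - (α + N * (4 * σ) + s' * x) ≤ 4 * σ := by
            have := ht.2
            push_cast at this
            linarith
          have hwt : w x * (t - (α + N * (4 * σ) + s' * x)) ≤ t - (α + N * (4 * σ) + s' * x) :=
            mul_le_of_le_one_left (sub_nonneg.2 hcase) hw1
          have hwt0 : 0 ≤ w x * (t - (α + N * (4 * σ) + s' * x)) :=
            mul_nonneg hw0 (sub_nonneg.2 hcase)
          have hdec : w x * (t - (α + s' * x)) =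
              w x * (N * (4 * σ)) + w x * (t - (α + N * (4 * σ) + s' * x)) := by ring
          rw [hdec]
          rw [abs_le] at f1 ⊢
          constructor <;> linarith [f1.1, f1.2]

lemma shift_le {a σ x : ℝ} (h : |a| ≤ 3 / 2 * σ) (hx : x ∈ Icc (0 : ℝ) 2) :
    -(3 * σ) ≤ a * x ∧ a * x ≤ 3 * σ := by
  rw [← abs_le, abs_mul, abs_of_nonneg hx.1]
  have h0 : 0 ≤ |a| := abs_nonneg a
  calc |a| * x ≤ |a| * 2 := mul_le_mul_of_nonneg_left hx.2 h0
    _ ≤ (3 / 2 * σ) * 2 := mul_le_mul_of_nonneg_right h (by norm_num)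
    _ = 3 * σ := by ring

/-- a new realizable profile from an old one -/
lemma real_step {x0 : ℝ} {u : ℝ → ℝ} (hx0 : 0 ≤ x0) (hx0' : x0 ≤ 1 / 8)
    (hu : ∀ x ∈ Icc x0 2, 0 ≤ u x ∧ u x ≤ 1) (h : RealP x0 u) :
    RealP x0 (fun x => u x - (x - x0) / 4 * (u x) ^ 2) := by
  intro q0 hs hab ε hε
  have hlen : 0 < q0.b - q0.a := sub_pos.2 hab
  have hw : ∀ x ∈ Icc x0 2, 0 ≤ u x - (x - x0) / 4 * (u x) ^ 2 ∧ u x - (x - x0) / 4 * (u x) ^ 2 ≤ 1 := by
    intro x hx
    obtain ⟨h0, h1⟩ := hu x hx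
    have h2 : 0 ≤ x - x0 := sub_nonneg.2 hx.1
    have h3 : x - x0 ≤ 2 := by linarith [hx.2]
    have h4 : (u x) ^ 2 ≤ u x := by nlinarith
    constructor
    · nlinarith [sq_nonneg (u x)]
    · have : 0 ≤ (x - x0) / 4 * (u x) ^ 2 := by positivity
      linarith
  obtain ⟨n, hn⟩ : ∃ n : ℕ, (1 / 3 : ℝ) ^ n < min (ε / 100) ((q0.b - q0.a) / 100) :=
    exists_pow_lt_of_lt_one (by positivity) (by norm_num)
  obtain ⟨s', hs1, hs2⟩ := exists_left n q0.s hs
  set σ : ℝ := (1 / 3) ^ n * (2 / 3) with hσdef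
  have hp : (1 / 3 : ℝ) ^ n = 3 / 2 * σ := by rw [hσdef]; ring
  have hσ : 0 < σ := by positivity
  rw [hp] at hn hs1
  have hσε : σ ≤ ε / 100 := by
    have := hn.le.trans (min_le_left _ _)
    linarith
  have hσl : σ ≤ (q0.b - q0.a) / 100 := by
    have := hn.le.trans (min_le_right _ _)
    linarith
  have hs'mem : s' ∈ cantorSet := by
    have := hs2 0 zero_mem_cantorSet
    simpa using this
  have hσs : s' + σ ∈ cantorSet := hs2 _ two_thirds_mem
  set N : ℕ := ⌊(q0.b - q0.a) / (4 * σ)⌋₊ - 2 with hN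
  have h4σ : 0 < 4 * σ := by positivity
  have hfl1 : (⌊(q0.b - q0.a) / (4 * σ)⌋₊ : ℝ) * (4 * σ) ≤ q0.b - q0.a := by
    have := Nat.floor_le (div_nonneg hlen.le h4σ.le)
    rwa [le_div_iff₀ h4σ] at this
  have hfl2 : q0.b - q0.a < ((⌊(q0.b - q0.a) / (4 * σ)⌋₊ : ℝ) + 1) * (4 * σ) := by
    have := Nat.lt_floor_add_one ((q0.b - q0.a) / (4 * σ))
    rwa [div_lt_iff₀ h4σ] at this
  have hfl3 : 2 ≤ ⌊(q0.b - q0.a) / (4 * σ)⌋₊ := by
    apply Nat.le_floor
    rw [le_div_iff₀ h4σ]
    push_cast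
    linarith
  have hNc : (N : ℝ) = (⌊(q0.b - q0.a) / (4 * σ)⌋₊ : ℝ) - 2 := by
    rw [hN, Nat.cast_sub hfl3]
    norm_num
  have hN1 : (N : ℝ) * (4 * σ) ≤ q0.b - q0.a - 2 * (4 * σ) := by
    rw [hNc]
    linarith
  have hN2 : q0.b - q0.a - 3 * (4 * σ) ≤ N * (4 * σ) := by
    rw [hNc]
    linarith
  set e : ℝ := ε / (8 * (N + 1)) with he
  have hN0 : (0 : ℝ) ≤ N := Nat.cast_nonneg _
  have he0 : 0 < e := by positivity
  have heN : (N + 1) * e = ε / 8 := by
    rw [he]
    field_simp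
  have he8 : e ≤ ε / 8 := by nlinarith
  obtain ⟨F, hF, hmF⟩ := tiles hx0 hw hσ he0
    (fun α => block hx0 hx0' hu h hs'mem hσs hσ α he0) (q0.a + 4 * σ) N
  have hsx : ∀ x ∈ Icc (0 : ℝ) 2, -(3 * σ) ≤ (q0.s - s') * x ∧ (q0.s - s') * x ≤ 3 * σ :=
    fun x hx => shift_le hs1 hx
  rw [abs_le] at hs1
  refine ⟨F, ?_, ?_⟩
  · intro q hq
    obtain ⟨h1, h2, h3, h4, h5, _⟩ := hF q hq
    refine ⟨h1, ?_, h3, by linarith, ?_⟩
    · rw [abs_le] at h2 ⊢
      constructor <;> linarith [h2.1, h2.2, hs1.1, hs1.2]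
    · intro x hx
      obtain ⟨h6, h7⟩ := h5 x hx
      obtain ⟨h8, h9⟩ := hsx x hx
      rw [sub_mul] at h8 h9
      constructor
      · linarith
      · linarith
  · intro x hx c d hc hcd hd
    have hx' : x ∈ Icc (0 : ℝ) 2 := ⟨hx0.trans hx.1, hx.2⟩
    obtain ⟨hw0, hw1⟩ := hw x hx
    set w := u x - (x - x0) / 4 * (u x) ^ 2 with hwdef
    obtain ⟨f1, f2⟩ := hmF x hx
    rw [← hwdef] at f1 f2
    set β := q0.a + 4 * σ + s' * x with hβ
    set β' := q0.a + 4 * σ + N * (4 * σ) + s' * x with hβ'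
    have hββ' : β ≤ β' := by
      have : 0 ≤ (N : ℝ) * (4 * σ) := by positivity
      rw [hβ, hβ']
      linarith
    obtain ⟨hsx1, hsx2⟩ := hsx x hx'
    rw [sub_mul] at hsx1 hsx2
    have sF : sec F x ⊆ Icc β β' := by
      intro y hy
      obtain ⟨q, hq, h1, h2⟩ := mem_sec.1 hy
      obtain ⟨_, _, _, _, h5, h6⟩ := hF q hq
      exact ⟨(h6 x hx).trans h1, h2.trans (h5 x hx').2⟩
    have G : ∀ t, q0.a + q0.s * x ≤ t → t ≤ q0.b + q0.s * x →
        |mu (sec F x ∩ Iic t) - w * (t - β)| ≤ N * e + 4 * (4 * σ) := by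
      intro t ht1 ht2
      rcases le_total t β with hcase | hcase
      · have h0 : mu (sec F x ∩ Iic t) = 0 := by
          apply mu_of_subset_singleton (p := t)
          rintro y ⟨h1, h2⟩
          exact le_antisymm h2 (hcase.trans (sF h1).1)
        rw [h0, zero_sub, abs_neg, abs_mul, abs_of_nonneg hw0, abs_of_nonpos (by linarith)]
        have : w * -(t - β) ≤ 1 * -(t - β) := mul_le_mul_of_nonneg_right hw1 (by linarith)
        have hNe : 0 ≤ N * e := by positivity
        rw [hβ] at this ⊢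
        linarith
      · rcases le_total t β' with hcase' | hcase'
        · have := f2 t ⟨hcase, hcase'⟩
          refine this.trans ?_
          linarith
        · have h0 : sec F x ∩ Iic t = sec F x := by
            apply inter_eq_left.2
            intro y hy
            exact (sF hy).2.trans hcase'
          have hdec : w * (t - β) = w * (N * (4 * σ)) + w * (t - β') := by
            rw [hβ, hβ']
            ring
          have h3 : w * (t - β') ≤ 1 * (t - β') := mul_le_mul_of_nonneg_right hw1 (by linarith)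
          have h4 : 0 ≤ w * (t - β') := mul_nonneg hw0 (by linarith)
          have h5 : t - β' ≤ 4 * (4 * σ) := by
            rw [hβ']
            linarith
          rw [h0, hdec]
          rw [abs_le] at f1 ⊢
          constructor <;> linarith [f1.1, f1.2]
    have hcd' : mu (sec F x ∩ Iic d) = mu (sec F x ∩ Iic c) + mu (sec F x ∩ Icc c d) := by
      have e1 : sec F x ∩ Iic d = (sec F x ∩ Iic c) ∪ (sec F x ∩ Icc c d) := by
        rw [← inter_union_distrib_left]
        congr 1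
        ext y
        simp only [mem_Iic, mem_union, mem_Icc]
        constructor
        · intro hy
          rcases le_total y c with h | h
          · exact Or.inl h
          · exact Or.inr ⟨h, hy⟩
        · rintro (h | h)
          · exact h.trans hcd
          · exact h.2
      rw [e1, mu_union_of_inter (p := c) _ ((measurableSet_sec F x).inter measurableSet_Icc)
        (lt_top_of_subset inter_subset_left (sec_lt_top F x))
        (lt_top_of_subset inter_subset_left (sec_lt_top F x))]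
      rintro y ⟨h1, h2⟩
      exact le_antisymm h1.2 h2.2.1
    have G1 := G c hc (hcd.trans hd)
    have G2 := G d (hc.trans hcd) hd
    have e3 : mu (sec F x ∩ Icc c d) - w * (d - c) =
        (mu (sec F x ∩ Iic d) - w * (d - β)) - (mu (sec F x ∩ Iic c) - w * (c - β)) := by
      rw [hcd']
      ring
    rw [e3]
    have hNe : N * e ≤ ε / 8 := by nlinarith
    rw [abs_le] at G1 G2 ⊢
    constructor <;> linarith [G1.1, G1.2, G2.1, G2.2]

end Pool.Agent.R230.CK
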