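import Mathlib
import Pool.Agent.R230.CK.RealP

/-!
The core lemma: inside every strip with slope in the Cantor set there is a finite family of thin
strips with slopes in the Cantor set that almost fills the strip over `[1/16, 1/8]` and is almost
invisible over `[1/4, 2]`.
-/

set_option autoImplicit false

open MeasureTheory Set

namespace Pool.Agent.R230.CK

/-- the iterated profiles -/
noncomputable def un (x0 : ℝ) : ℕ → ℝ → ℝ
  | 0, _ => 1
  | n + 1, x => un x0 n x - (x - x0) / 4 * (un x0 n x) ^ 2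

lemma un_bounds {x0 x : ℝ} (h0 : x0 ≤ x) (h2 : x ≤ x0 + 2) (n : ℕ) :
    0 < un x0 n x ∧ un x0 n x ≤ 1 ∧ 1 ≤ un x0 n x * (1 + n * (x - x0) / 2) ∧
      un x0 n x * (1 + n * (x - x0) / 4) ≤ 1 := by
  induction n with
  | zero => simp [un]
  | succ n ih =>
    obtain ⟨h3, h4, h5, h6⟩ := ih
    set u := un x0 n x with hu
    set o := (x - x0) / 4 with ho
    have ho0 : 0 ≤ o := by rw [ho]; linarith
    have ho1 : o ≤ 1 / 2 := by rw [ho]; linarith
    have hou0 : 0 ≤ o * u := mul_nonneg ho0 h3.le
    have hou : o * u ≤ 1 / 2 := by nlinarith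
    have e1 : un x0 (n + 1) x = u * (1 - o * u) := by
      change u - (x - x0) / 4 * u ^ 2 = _
      rw [ho]
      ring
    rw [e1]
    refine ⟨mul_pos h3 (by linarith), ?_, ?_, ?_⟩
    · have : u * (1 - o * u) ≤ 1 * 1 := mul_le_mul h4 (by linarith) (by linarith) (by norm_num)
      linarith
    · have e2 : u * (1 - o * u) * (1 + ((n + 1 : ℕ) : ℝ) * (x - x0) / 2) =
          (1 - o * u) * (u * (1 + n * (x - x0) / 2) + 2 * (o * u)) := by
        rw [ho]
        push_cast
        ring
      rw [e2]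
      have : (1 - o * u) * (1 + 2 * (o * u)) ≤
          (1 - o * u) * (u * (1 + n * (x - x0) / 2) + 2 * (o * u)) :=
        mul_le_mul_of_nonneg_left (by linarith) (by linarith)
      nlinarith
    · have e2 : u * (1 - o * u) * (1 + ((n + 1 : ℕ) : ℝ) * (x - x0) / 4) =
          (1 - o * u) * (u * (1 + n * (x - x0) / 4) + o * u) := by
        rw [ho]
        push_cast
        ring
      rw [e2]
      have : (1 - o * u) * (u * (1 + n * (x - x0) / 4) + o * u) ≤ (1 - o * u) * (1 + o * u) :=
        mul_le_mul_of_nonneg_left (by linarith) (by linarith)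
      nlinarith [sq_nonneg (o * u)]

lemma real_un {x0 : ℝ} (hx0 : 0 ≤ x0) (hx0' : x0 ≤ 1 / 8) (n : ℕ) : RealP x0 (un x0 n) := by
  induction n with
  | zero => exact real_one x0
  | succ n ih =>
    exact real_step hx0 hx0' (fun x hx => by
      have := un_bounds hx.1 (by linarith [hx.2]) n
      exact ⟨this.1.le, this.2.1⟩) ih

/-- focus points -/
noncomputable def fp (M i : ℕ) : ℝ := i / (8 * M)

open Classical in
/-- lower bound for the density of the `i`-th family -/
noncomputable def lo (n M i : ℕ) (x : ℝ) : ℝ := if fp M i ≤ x then un (fp M i) n x else 0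

lemma fp_nonneg (M i : ℕ) : 0 ≤ fp M i := by unfold fp; positivity

lemma fp_le {M i : ℕ} (h : i ≤ M) (hM : 0 < M) : fp M i ≤ 1 / 8 := by
  unfold fp
  have hM' : (0 : ℝ) < M := by exact_mod_cast hM
  have h' : (i : ℝ) ≤ M := by exact_mod_cast h
  rw [div_le_div_iff₀ (by positivity) (by norm_num)]
  linarith

open Classical in
lemma total (n M : ℕ) (hM : 0 < M) (m : ℕ) (hm : m ≤ M) (q0 : Strip) (hs : q0.s ∈ cantorSet)
    (hab : q0.a < q0.b) : ∀ ε > 0, ∃ F : Finset Strip,
    (∀ q ∈ F, q.s ∈ cantorSet ∧ |q.s - q0.s| ≤ ε ∧ q.a < q.b ∧ q.b - q.a ≤ ε ∧ Inside q q0) ∧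
    (∀ x ∈ Icc (0 : ℝ) 2, (1 - ∏ i ∈ Finset.range m, (1 - lo n M i x)) * (q0.b - q0.a) - ε ≤
      mu (sec F x)) ∧
    ∀ x ∈ Icc (1 / 4 : ℝ) 2, mu (sec F x) ≤ m * (1 / (1 + n / 32)) * (q0.b - q0.a) + ε := by
  have hlen : 0 < q0.b - q0.a := sub_pos.2 hab
  induction m with
  | zero =>
    intro ε hε
    refine ⟨∅, by simp, ?_, ?_⟩
    · intro x _
      simp [sec_empty, mu_empty, hε.le]
    · intro x _
      simp [sec_empty, mu_empty, hε.le]
  | succ m ih =>
    intro ε hε
    obtain ⟨F, hF, hF1, hF2⟩ := ih (by omega) (ε / 4) (by positivity)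
    set e2 : ℝ := ε / (4 * 2 ^ F.card) with he2
    have h2n : (1 : ℝ) ≤ 2 ^ F.card := one_le_pow₀ (by norm_num)
    have he2' : 0 < e2 := by positivity
    have he22 : e2 * 2 ^ F.card = ε / 4 := by
      rw [he2]
      field_simp
    have he24 : e2 ≤ ε / 4 := by nlinarith
    obtain ⟨V, hV, hV1⟩ := real_un (fp_nonneg M m) (fp_le (by omega) hM) n q0 hs hab e2 he2'
    refine ⟨F ∪ V, ?_, ?_, ?_⟩
    · intro q hq
      rcases Finset.mem_union.1 hq with hq | hq
      · obtain ⟨h1, h2, h3, h4, h5⟩ := hF q hq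
        exact ⟨h1, by linarith, h3, by linarith, h5⟩
      · obtain ⟨h1, h2, h3, h4, h5⟩ := hV q hq
        exact ⟨h1, by linarith, h3, by linarith, h5⟩
    · intro x hx
      have f1 := hF1 x hx
      rw [Finset.prod_range_succ]
      set P := ∏ i ∈ Finset.range m, (1 - lo n M i x) with hP
      rcases le_or_gt (fp M m) x with hcase | hcase
      · have hlo : lo n M m x = un (fp M m) n x := by simp [lo, hcase]
        rw [hlo]
        obtain ⟨hu0, hu1, _, _⟩ := un_bounds hcase (by linarith [hx.2, fp_nonneg M m]) n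
        set u := un (fp M m) n x with hu
        have hx' : x ∈ Icc (fp M m) 2 := ⟨hcase, hx.2⟩
        have sF : sec F x ⊆ Icc (q0.a + q0.s * x) (q0.b + q0.s * x) :=
          sec_subset (fun q hq => (hF q hq).2.2.2.2) hx
        have sV : sec V x ⊆ Icc (q0.a + q0.s * x) (q0.b + q0.s * x) :=
          sec_subset (fun q hq => (hV q hq).2.2.2.2) hx
        have v1 := hV1 x hx' (q0.a + q0.s * x) (q0.b + q0.s * x) le_rfl (by linarith) le_rfl
        rw [inter_eq_left.2 sV, ← hu] at v1
        have v2 := dec (measurableSet_sec V x) he2'.le (hV1 x hx') x F (q0.a + q0.s * x)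
          (q0.b + q0.s * x) le_rfl le_rfl
        rw [inter_eq_left.2 sF, ← hu] at v2
        have hmF : mu (sec F x) ≤ q0.b - q0.a := by
          have := mu_mono sF (Icc_lt_top _ _)
          rw [mu_Icc (by linarith)] at this
          linarith
        rw [sec_union, mu_union (measurableSet_sec V x) (sec_lt_top F x) (sec_lt_top V x),
          inter_comm (sec F x)]
        set A := mu (sec F x)
        set B := mu (sec V x)
        set C := mu (sec V x ∩ sec F x)
        rw [abs_le] at v1 v2
        have v2' : C ≤ u * A + ε / 4 := by nlinarith [v2.2]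
        have g1 : (1 - u) * ((1 - P) * (q0.b - q0.a) - ε / 4) ≤ (1 - u) * A :=
          mul_le_mul_of_nonneg_left f1 (by linarith)
        have g2 : u * (ε / 4) ≥ 0 := by positivity
        nlinarith [v1.1]
      · have hlo : lo n M m x = 0 := by simp [lo, hcase]
        rw [hlo, sub_zero, mul_one]
        have : mu (sec F x) ≤ mu (sec (F ∪ V) x) := by
          apply mu_mono _ (sec_lt_top _ x)
          rw [sec_union]
          exact subset_union_left
        linarith
    · intro x hx
      have f2 := hF2 x hx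
      have hx0 : x ∈ Icc (0 : ℝ) 2 := ⟨by linarith [hx.1], hx.2⟩
      have hfp := fp_le (M := M) (i := m) (by omega) hM
      have hcase : fp M m ≤ x := by linarith [hx.1]
      have hx' : x ∈ Icc (fp M m) 2 := ⟨hcase, hx.2⟩
      obtain ⟨hu0, hu1, _, hu3⟩ := un_bounds hcase (by linarith [hx.2, fp_nonneg M m]) n
      have sV : sec V x ⊆ Icc (q0.a + q0.s * x) (q0.b + q0.s * x) :=
        sec_subset (fun q hq => (hV q hq).2.2.2.2) hx0
      have v1 := hV1 x hx' (q0.a + q0.s * x) (q0.b + q0.s * x) le_rfl (by linarith) le_rfl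
      rw [inter_eq_left.2 sV] at v1
      set u := un (fp M m) n x with hu
      have hn0 : (0 : ℝ) ≤ n := Nat.cast_nonneg n
      have huκ : u ≤ 1 / (1 + n / 32) := by
        rw [le_div_iff₀ (by positivity)]
        refine le_trans ?_ hu3
        apply mul_le_mul_of_nonneg_left _ hu0.le
        nlinarith [hx.1]
      have g := mu_union_le (sec F x) (sec V x)
      rw [← sec_union] at g
      rw [abs_le] at v1
      have g2 : u * (q0.b - q0.a) ≤ 1 / (1 + n / 32) * (q0.b - q0.a) :=
        mul_le_mul_of_nonneg_right huκ hlen.le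
      push_cast
      linarith [v1.2]

lemma exists_params {η : ℝ} (hη : 0 < η) : ∃ n M : ℕ, 0 < M ∧
    (M : ℝ) * (1 / (1 + n / 32)) ≤ η / 2 ∧
    ∀ x ∈ Icc (1 / 16 : ℝ) (1 / 8), ∏ i ∈ Finset.range M, (1 - lo n M i x) ≤ η / 2 := by
  obtain ⟨r, hr⟩ := exists_nat_ge (4 / η)
  have hr0 : (0 : ℝ) < r := lt_of_lt_of_le (by positivity) hr
  obtain ⟨K, hK⟩ := (Filter.tendsto_atTop.1 Real.tendsto_sum_range_one_div_nat_succ_atTop
    (2 * (r + 1) * Real.log (2 / η))).exists
  set K' := max K 1
  have hK' : 2 * (r + 1) * Real.log (2 / η) ≤ ∑ i ∈ Finset.range K', (1 / ((i : ℝ) + 1)) := by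
    refine hK.trans (Finset.sum_le_sum_of_subset_of_nonneg ?_ ?_)
    · intro i hi
      rw [Finset.mem_range] at hi ⊢
      exact hi.trans_le (le_max_left _ _)
    · intro i _ _
      positivity
  have hK1 : 1 ≤ K' := le_max_right _ _
  refine ⟨16 * r * (2 * K'), 2 * K', by omega, ?_, ?_⟩
  · rw [mul_one_div, div_le_iff₀ (by positivity)]
    push_cast
    have h1 : 4 ≤ r * η := by
      rw [div_le_iff₀ hη] at hr
      exact hr
    have hK0 : (1 : ℝ) ≤ (K' : ℝ) := by exact_mod_cast hK1
    nlinarith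
  · intro x hx
    set M : ℕ := 2 * K' with hM
    have hM0 : (0 : ℝ) < M := by
      rw [hM]
      exact_mod_cast (by omega : 0 < 2 * K')
    have hMK : (M : ℝ) = 2 * K' := by rw [hM]; push_cast; ring
    set n : ℕ := 16 * r * M with hn
    have hnM : (n : ℝ) = 16 * r * M := by rw [hn]; push_cast; ring
    set i0 := ⌊8 * M * x⌋₊ with hi0
    have hx0 : 0 ≤ 8 * M * x := by
      have := hx.1
      positivity
    have hi1 : (i0 : ℝ) ≤ 8 * M * x := Nat.floor_le hx0
    have hi2 : 8 * M * x < i0 + 1 := Nat.lt_floor_add_one _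
    have hiM : i0 ≤ M := by
      have : (i0 : ℝ) ≤ M := by nlinarith [hx.2]
      exact_mod_cast this
    have hiK : K' ≤ i0 := by
      apply Nat.le_floor
      rw [hMK]
      nlinarith [hx.1, (Nat.cast_nonneg K' : (0 : ℝ) ≤ K')]
    have hlo : ∀ i, 0 ≤ lo n M i x ∧ lo n M i x ≤ 1 := by
      intro i
      unfold lo
      split_ifs with h
      · have := un_bounds h (by linarith [hx.2, fp_nonneg M i]) n
        exact ⟨this.1.le, this.2.1⟩
      · exact ⟨le_rfl, zero_le_one⟩
    have h1 : ∏ i ∈ Finset.range M, (1 - lo n M i x) ≤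
        Real.exp (-∑ i ∈ Finset.range M, lo n M i x) := by
      rw [← Finset.sum_neg_distrib, Real.exp_sum]
      apply Finset.prod_le_prod
      · intro i _
        linarith [(hlo i).2]
      · intro i _
        have := Real.add_one_le_exp (-lo n M i x)
        linarith
    have h2 : Real.log (2 / η) ≤ ∑ i ∈ Finset.range M, lo n M i x := by
      have e1 : ∑ i ∈ Finset.range i0, lo n M i x ≤ ∑ i ∈ Finset.range M, lo n M i x := by
        apply Finset.sum_le_sum_of_subset_of_nonneg
        · intro i hi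
          rw [Finset.mem_range] at hi ⊢
          omega
        · intro i _ _
          exact (hlo i).1
      have e2 : ∑ j ∈ Finset.range i0, (1 / (2 * ((r : ℝ) + 1)) * (1 / ((j : ℝ) + 1))) ≤
          ∑ i ∈ Finset.range i0, lo n M i x := by
        rw [← Finset.sum_range_reflect]
        apply Finset.sum_le_sum
        intro i hi
        rw [Finset.mem_range] at hi
        have hi' : (i : ℝ) + 1 ≤ i0 := by exact_mod_cast hi
        have hc : ((i0 - 1 - i : ℕ) : ℝ) = i0 - 1 - i := by
          rw [Nat.cast_sub (by omega), Nat.cast_sub (by omega)]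
          simp
        rw [hc]
        have hle : fp M i ≤ x := by
          unfold fp
          rw [div_le_iff₀ (by positivity)]
          nlinarith
        have hloi : lo n M i x = un (fp M i) n x := by simp [lo, hle]
        rw [hloi]
        obtain ⟨u0, u1, u2, _⟩ := un_bounds hle (by linarith [hx.2, fp_nonneg M i]) n
        set u := un (fp M i) n x
        have hdist : (n : ℝ) * (x - fp M i) / 2 ≤ r * (i0 + 1 - i) := by
          have : n * (x - fp M i) / 2 = r * (8 * M * x - i) := by
            rw [hnM]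
            unfold fp
            field_simp
            ring
          rw [this]
          apply mul_le_mul_of_nonneg_left _ hr0.le
          linarith
        have hk : (1 : ℝ) ≤ i0 - i := by linarith
        have h3 : 1 + n * (x - fp M i) / 2 ≤ 2 * (r + 1) * (i0 - 1 - i + 1) := by nlinarith
        have h4 : 1 ≤ u * (2 * (r + 1) * (i0 - 1 - i + 1)) :=
          u2.trans (mul_le_mul_of_nonneg_left h3 u0.le)
        have hpos : (0 : ℝ) < i0 - 1 - i + 1 := by linarith
        have hpos2 : (0 : ℝ) < 2 * (r + 1) * (i0 - 1 - i + 1) := mul_pos (by positivity) hpos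
        have e5 : 1 / (2 * ((r : ℝ) + 1)) * (1 / ((i0 : ℝ) - 1 - i + 1)) =
            1 / (2 * (r + 1) * (i0 - 1 - i + 1)) := by
          rw [one_div_mul_one_div]
        rw [e5, div_le_iff₀ hpos2]
        exact h4
      have e3 : ∑ j ∈ Finset.range K', (1 / ((j : ℝ) + 1)) ≤
          ∑ j ∈ Finset.range i0, (1 / ((j : ℝ) + 1)) := by
        apply Finset.sum_le_sum_of_subset_of_nonneg
        · intro i hi
          rw [Finset.mem_range] at hi ⊢
          omega
        · intro i _ _
          positivity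
      rw [← Finset.mul_sum] at e2
      have e4 : Real.log (2 / η) ≤ 1 / (2 * ((r : ℝ) + 1)) * ∑ j ∈ Finset.range i0, (1 / ((j : ℝ) + 1)) := by
        rw [one_div, inv_mul_eq_div, le_div_iff₀ (by positivity)]
        linarith
      linarith
    calc ∏ i ∈ Finset.range M, (1 - lo n M i x)
        ≤ Real.exp (-∑ i ∈ Finset.range M, lo n M i x) := h1
      _ ≤ Real.exp (-Real.log (2 / η)) := Real.exp_le_exp.2 (by linarith)
      _ = η / 2 := by
        rw [Real.exp_neg, Real.exp_log (by positivity)]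
        field_simp

/-- the core lemma -/
lemma core {η : ℝ} (hη : 0 < η) (q0 : Strip) (hs : q0.s ∈ cantorSet) (hab : q0.a < q0.b) {ε : ℝ}
    (hε : 0 < ε) : ∃ F : Finset Strip,
    (∀ q ∈ F, q.s ∈ cantorSet ∧ |q.s - q0.s| ≤ ε ∧ q.a < q.b ∧ q.b - q.a ≤ ε ∧ Inside q q0) ∧
    (∀ x ∈ Icc (1 / 16 : ℝ) (1 / 8), (1 - η) * (q0.b - q0.a) ≤ mu (sec F x)) ∧
    ∀ x ∈ Icc (1 / 4 : ℝ) 2, mu (sec F x) ≤ η * (q0.b - q0.a) := by
  have hlen : 0 < q0.b - q0.a := sub_pos.2 hab
  obtain ⟨n, M, hM, h1, h2⟩ := exists_params hη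
  have hε' : 0 < min ε (η / 2 * (q0.b - q0.a)) := by positivity
  obtain ⟨F, hF, hF1, hF2⟩ := total n M hM M le_rfl q0 hs hab _ hε'
  refine ⟨F, ?_, ?_, ?_⟩
  · intro q hq
    obtain ⟨g1, g2, g3, g4, g5⟩ := hF q hq
    exact ⟨g1, g2.trans (min_le_left _ _), g3, g4.trans (min_le_left _ _), g5⟩
  · intro x hx
    refine le_trans ?_ (hF1 x ⟨by linarith [hx.1], by linarith [hx.2]⟩)
    have g1 := h2 x hx
    have g2 := min_le_right ε (η / 2 * (q0.b - q0.a))
    have g3 : (1 - η / 2) * (q0.b - q0.a) ≤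
        (1 - ∏ i ∈ Finset.range M, (1 - lo n M i x)) * (q0.b - q0.a) :=
      mul_le_mul_of_nonneg_right (by linarith) hlen.le
    linarith
  · intro x hx
    refine (hF2 x hx).trans ?_
    have g2 := min_le_right ε (η / 2 * (q0.b - q0.a))
    have g3 := mul_le_mul_of_nonneg_right h1 hlen.le
    linarith

end Pool.Agent.R230.CK
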