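import Mathlib
import Pool.Agent.R230.CK.Core

/-!
One step of the construction: a finite family of strips is replaced by a finite family of much
thinner strips inside them, with pairwise different slopes.
-/

set_option autoImplicit false

open MeasureTheory Set

namespace Pool.Agent.R230.CK

open Classical in
lemma distinct {δ : ℝ} (hδ : 0 < δ) (A : Finset Strip) : (∀ q ∈ A, q.s ∈ cantorSet) →
    ∃ φ : Strip → ℝ, Set.InjOn φ (A : Set Strip) ∧ ∀ q ∈ A, φ q ∈ cantorSet ∧ |φ q - q.s| ≤ δ := by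
  induction A using Finset.induction_on with
  | empty =>
    intro _
    exact ⟨fun _ => 0, by simp, by simp⟩
  | insert q A hq ih =>
    intro hA
    obtain ⟨φ, h1, h2⟩ := ih fun q' hq' => hA q' (Finset.mem_insert_of_mem hq')
    obtain ⟨t, ht, htA⟩ := (infinite_near (hA q (Finset.mem_insert_self _ _)) hδ).exists_notMem_finset
      (A.image φ)
    refine ⟨Function.update φ q t, ?_, ?_⟩
    · have hne : ∀ q' ∈ A, q' ≠ q := fun q' hq' h => hq (h ▸ hq')
      have hval : ∀ q' ∈ A, Function.update φ q t q' = φ q' := fun q' hq' =>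
        Function.update_of_ne (hne q' hq') _ _
      intro a ha b hb hab
      rw [Finset.mem_coe, Finset.mem_insert] at ha hb
      rcases ha with rfl | ha
      · rcases hb with rfl | hb
        · rfl
        · rw [Function.update_self, hval b hb] at hab
          exact absurd (Finset.mem_image.2 ⟨b, hb, hab.symm⟩) htA
      · rcases hb with rfl | hb
        · rw [Function.update_self, hval a ha] at hab
          exact absurd (Finset.mem_image.2 ⟨a, ha, hab⟩) htA
        · rw [hval a ha, hval b hb] at hab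
          exact h1 (Finset.mem_coe.2 ha) (Finset.mem_coe.2 hb) hab
    · intro q' hq'
      rcases Finset.mem_insert.1 hq' with rfl | hq'
      · rw [Function.update_self]
        exact ht
      · rw [Function.update_of_ne (fun h : q' = q => hq (h ▸ hq'))]
        exact h2 q' hq'

open Classical in
lemma exists_delta (A : Finset Strip) : (∀ q ∈ A, q.a < q.b) →
    ∃ δ > 0, ∀ q ∈ A, 4 * δ < q.b - q.a := by
  induction A using Finset.induction_on with
  | empty =>
    intro _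
    exact ⟨1, one_pos, by simp⟩
  | insert q A hq ih =>
    intro hA
    obtain ⟨δ, h1, h2⟩ := ih fun q' hq' => hA q' (Finset.mem_insert_of_mem hq')
    have h3 := hA q (Finset.mem_insert_self _ _)
    refine ⟨min δ ((q.b - q.a) / 8), lt_min h1 (by linarith), ?_⟩
    intro q' hq'
    rcases Finset.mem_insert.1 hq' with rfl | hq'
    · have := min_le_right δ ((q'.b - q'.a) / 8)
      linarith
    · have := min_le_left δ ((q.b - q.a) / 8)
      have := h2 q' hq'
      linarith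

lemma mu_biUnion_le {ι : Type*} (s : Finset ι) (f : ι → Set ℝ) :
    mu (⋃ i ∈ s, f i) ≤ ∑ i ∈ s, mu (f i) := by
  unfold mu
  exact measureReal_biUnion_finset_le s f

lemma biUnion_lt_top {ι : Type*} (s : Finset ι) (f : ι → Set ℝ) (h : ∀ i ∈ s, volume (f i) < ⊤) :
    volume (⋃ i ∈ s, f i) < ⊤ :=
  (measure_biUnion_finset_le s f).trans_lt (ENNReal.sum_lt_top.2 h)

lemma mu_le_of_subset_union {A B C : Set ℝ} (h : A ⊆ B ∪ C) (hB : volume B < ⊤) (hC : volume C < ⊤) :
    mu A ≤ mu B + mu C :=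
  (mu_mono h ((measure_union_le B C).trans_lt (ENNReal.add_lt_top.2 ⟨hB, hC⟩))).trans (mu_union_le B C)

open Classical in
lemma nextstep (F : Finset Strip) (hF : ∀ q ∈ F, q.s ∈ cantorSet ∧ q.a < q.b) {ρ η : ℝ}
    (hρ : 0 < ρ) (hη : 0 < η) : ∃ F' : Finset Strip,
    (∀ q' ∈ F', q'.s ∈ cantorSet ∧ q'.a < q'.b ∧ q'.b - q'.a ≤ η ∧
      ∃ q ∈ F, |q'.s - q.s| ≤ ρ ∧ Inside q' q) ∧
    Set.InjOn Strip.s (F' : Set Strip) ∧
    (∀ x ∈ Icc (1 / 16 : ℝ) (1 / 8), mu (sec F x) ≤ mu (sec F' x) + η) ∧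
    ∀ x ∈ Icc (1 / 4 : ℝ) 2, mu (sec F' x) ≤ η := by
  set S := ∑ q ∈ F, (q.b - q.a) with hS
  have hS0 : 0 ≤ S := Finset.sum_nonneg fun q hq => by linarith [(hF q hq).2]
  set η1 : ℝ := η / (2 * (S + 1)) with hη1
  have hη10 : 0 < η1 := by positivity
  have hη1S : η1 * S ≤ η / 2 := by
    have : η1 * (S + 1) = η / 2 := by
      rw [hη1]
      field_simp
    nlinarith
  have hεpos : 0 < min (ρ / 2) η := by positivity
  have hcore : ∀ q : Strip, ∃ G : Finset Strip, q ∈ F →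
      (∀ q' ∈ G, q'.s ∈ cantorSet ∧ |q'.s - q.s| ≤ min (ρ / 2) η ∧ q'.a < q'.b ∧
        q'.b - q'.a ≤ min (ρ / 2) η ∧ Inside q' q) ∧
      (∀ x ∈ Icc (1 / 16 : ℝ) (1 / 8), (1 - η1) * (q.b - q.a) ≤ mu (sec G x)) ∧
      ∀ x ∈ Icc (1 / 4 : ℝ) 2, mu (sec G x) ≤ η1 * (q.b - q.a) := by
    intro q
    by_cases hq : q ∈ F
    · obtain ⟨G, hG⟩ := core hη10 q (hF q hq).1 (hF q hq).2 hεpos
      exact ⟨G, fun _ => hG⟩
    · exact ⟨∅, fun h => absurd h hq⟩
  choose G hG using hcore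
  set A := F.biUnion G with hA
  have memA : ∀ q' ∈ A, ∃ q ∈ F, q' ∈ G q := fun q' hq' => Finset.mem_biUnion.1 hq'
  have hA1 : ∀ q' ∈ A, q'.s ∈ cantorSet ∧ q'.a < q'.b ∧ q'.b - q'.a ≤ η ∧
      ∃ q ∈ F, |q'.s - q.s| ≤ ρ / 2 ∧ Inside q' q := by
    intro q' hq'
    obtain ⟨q, hq, hqG⟩ := memA q' hq'
    obtain ⟨g1, g2, g3, g4, g5⟩ := (hG q hq).1 q' hqG
    exact ⟨g1, g3, g4.trans (min_le_right _ _), q, hq, g2.trans (min_le_left _ _), g5⟩
  obtain ⟨δ1, hδ1, hδ1'⟩ := exists_delta A fun q hq => (hA1 q hq).2.1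
  set δ : ℝ := min δ1 (min (ρ / 2) (η / (16 * (A.card + 1)))) with hδ
  have hδ0 : 0 < δ := by positivity
  have hδa : ∀ q ∈ A, 4 * δ < q.b - q.a := fun q hq => by
    have := min_le_left δ1 (min (ρ / 2) (η / (16 * (A.card + 1))))
    have := hδ1' q hq
    linarith
  have hδρ : δ ≤ ρ / 2 := (min_le_right _ _).trans (min_le_left _ _)
  have hδη : A.card * (8 * δ) ≤ η / 2 := by
    have h1 : δ ≤ η / (16 * (A.card + 1)) := (min_le_right _ _).trans (min_le_right _ _)
    rw [le_div_iff₀ (by positivity)] at h1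
    nlinarith
  obtain ⟨φ, hφ1, hφ2⟩ := distinct hδ0 A fun q hq => (hA1 q hq).1
  set ψ : Strip → Strip := fun q => ⟨φ q, q.a + 2 * δ, q.b - 2 * δ⟩ with hψ
  have hshift : ∀ q ∈ A, ∀ x ∈ Icc (0 : ℝ) 2, -(2 * δ) ≤ φ q * x - q.s * x ∧
      φ q * x - q.s * x ≤ 2 * δ := by
    intro q hq x hx
    have h1 := (hφ2 q hq).2
    rw [← sub_mul, ← abs_le, abs_mul, abs_of_nonneg hx.1]
    calc |φ q - q.s| * x ≤ |φ q - q.s| * 2 := mul_le_mul_of_nonneg_left hx.2 (abs_nonneg _)
      _ ≤ δ * 2 := mul_le_mul_of_nonneg_right h1 (by norm_num)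
      _ = 2 * δ := by ring
  refine ⟨A.image ψ, ?_, ?_, ?_, ?_⟩
  · intro q' hq'
    obtain ⟨q, hq, rfl⟩ := Finset.mem_image.1 hq'
    obtain ⟨h1, h2, h3, p, hp, h4, h5⟩ := hA1 q hq
    refine ⟨(hφ2 q hq).1, ?_, ?_, p, hp, ?_, ?_⟩
    · change q.a + 2 * δ < q.b - 2 * δ
      linarith [hδa q hq]
    · change q.b - 2 * δ - (q.a + 2 * δ) ≤ η
      linarith
    · change |φ q - p.s| ≤ ρ
      have : φ q - p.s = (φ q - q.s) + (q.s - p.s) := by ring
      rw [this]
      refine (abs_add_le _ _).trans ?_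
      linarith [(hφ2 q hq).2]
    · intro x hx
      have h6 := hshift q hq x hx
      have h7 := h5 x hx
      change p.a + p.s * x ≤ q.a + 2 * δ + φ q * x ∧ q.b - 2 * δ + φ q * x ≤ p.b + p.s * x
      constructor <;> linarith [h6.1, h6.2, h7.1, h7.2]
  · intro a ha b hb hab
    rw [Finset.mem_coe] at ha hb
    obtain ⟨a', ha', rfl⟩ := Finset.mem_image.1 ha
    obtain ⟨b', hb', rfl⟩ := Finset.mem_image.1 hb
    have : a' = b' := hφ1 (Finset.mem_coe.2 ha') (Finset.mem_coe.2 hb') hab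
    rw [this]
  · intro x hx
    have hx' : x ∈ Icc (0 : ℝ) 2 := ⟨by linarith [hx.1], by linarith [hx.2]⟩
    have s1 : sec F x ⊆ sec A x ∪ ⋃ q ∈ F, (q.sec x \ sec (G q) x) := by
      intro y hy
      obtain ⟨q, hq, h1, h2⟩ := mem_sec.1 hy
      by_cases hyG : y ∈ sec (G q) x
      · left
        obtain ⟨q', hq', h3, h4⟩ := mem_sec.1 hyG
        exact mem_sec.2 ⟨q', Finset.mem_biUnion.2 ⟨q, hq, hq'⟩, h3, h4⟩
      · right
        exact mem_biUnion hq ⟨⟨h1, h2⟩, hyG⟩
    have m1 : ∀ q ∈ F, mu (q.sec x \ sec (G q) x) ≤ η1 * (q.b - q.a) := by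
      intro q hq
      have hsub : sec (G q) x ⊆ q.sec x := sec_subset (fun q' hq' => ((hG q hq).1 q' hq').2.2.2.2) hx'
      have e1 : mu (q.sec x \ sec (G q) x) = mu (q.sec x) - mu (sec (G q) x) := by
        unfold mu
        exact measureReal_sdiff hsub (measurableSet_sec _ x) (Icc_lt_top _ _).ne
      have e2 : mu (q.sec x) = q.b - q.a := by
        unfold Strip.sec
        rw [mu_Icc (by linarith [(hF q hq).2])]
        ring
      rw [e1, e2]
      have := (hG q hq).2.1 x hx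
      linarith
    have b1 : mu (sec F x) ≤ mu (sec A x) + η / 2 := by
      have hfin : ∀ q ∈ F, volume (q.sec x \ sec (G q) x) < ⊤ := fun q _ =>
        lt_top_of_subset sdiff_subset (Icc_lt_top _ _)
      refine (mu_le_of_subset_union s1 (sec_lt_top A x) (biUnion_lt_top F _ hfin)).trans ?_
      have h2 := mu_biUnion_le F (fun q => q.sec x \ sec (G q) x)
      have h3 := Finset.sum_le_sum m1
      rw [← Finset.mul_sum, ← hS] at h3
      linarith
    have s2 : sec A x ⊆ sec (A.image ψ) x ∪ ⋃ q ∈ A, (Icc (q.a + q.s * x) (q.a + 2 * δ + φ q * x) ∪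
        Icc (q.b - 2 * δ + φ q * x) (q.b + q.s * x)) := by
      intro y hy
      obtain ⟨q, hq, h1, h2⟩ := mem_sec.1 hy
      by_cases hc1 : y ≤ q.a + 2 * δ + φ q * x
      · right
        exact mem_biUnion hq (Or.inl ⟨h1, hc1⟩)
      · by_cases hc2 : q.b - 2 * δ + φ q * x ≤ y
        · right
          exact mem_biUnion hq (Or.inr ⟨hc2, h2⟩)
        · left
          push Not at hc1 hc2
          exact mem_sec.2 ⟨ψ q, Finset.mem_image_of_mem _ hq, hc1.le, hc2.le⟩
    have b2 : mu (sec A x) ≤ mu (sec (A.image ψ) x) + η / 2 := by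
      have hfin : ∀ q ∈ A, volume (Icc (q.a + q.s * x) (q.a + 2 * δ + φ q * x) ∪
          Icc (q.b - 2 * δ + φ q * x) (q.b + q.s * x)) < ⊤ := fun q _ =>
        (measure_union_le _ _).trans_lt (ENNReal.add_lt_top.2 ⟨Icc_lt_top _ _, Icc_lt_top _ _⟩)
      refine (mu_le_of_subset_union s2 (sec_lt_top _ x) (biUnion_lt_top A _ hfin)).trans ?_
      have h2 := mu_biUnion_le A (fun q => Icc (q.a + q.s * x) (q.a + 2 * δ + φ q * x) ∪
          Icc (q.b - 2 * δ + φ q * x) (q.b + q.s * x))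
      have h3 : ∀ q ∈ A, mu (Icc (q.a + q.s * x) (q.a + 2 * δ + φ q * x) ∪
          Icc (q.b - 2 * δ + φ q * x) (q.b + q.s * x)) ≤ 8 * δ := by
        intro q hq
        have h6 := hshift q hq x hx'
        refine (mu_union_le _ _).trans ?_
        rw [mu_Icc (by linarith [h6.1]), mu_Icc (by linarith [h6.2])]
        linarith [h6.1, h6.2]
      have h4 := Finset.sum_le_sum h3
      rw [Finset.sum_const, nsmul_eq_mul] at h4
      linarith
    linarith
  · intro x hx
    have hx' : x ∈ Icc (0 : ℝ) 2 := ⟨by linarith [hx.1], by linarith [hx.2]⟩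
    have s1 : sec (A.image ψ) x ⊆ ⋃ q ∈ F, sec (G q) x := by
      intro y hy
      obtain ⟨q', hq', h1, h2⟩ := mem_sec.1 hy
      obtain ⟨q, hq, rfl⟩ := Finset.mem_image.1 hq'
      have h6 := hshift q hq x hx'
      obtain ⟨p, hp, hqp⟩ := memA q hq
      refine mem_biUnion hp (mem_sec.2 ⟨q, hqp, ?_, ?_⟩)
      · have : q.a + 2 * δ + φ q * x ≤ y := h1
        linarith [h6.2, h6.1]
      · have : y ≤ q.b - 2 * δ + φ q * x := h2
        linarith [h6.2, h6.1]
    refine (mu_mono s1 (biUnion_lt_top F _ fun q _ => sec_lt_top _ x)).trans ?_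
    refine (mu_biUnion_le F _).trans ?_
    have h3 := Finset.sum_le_sum fun q hq => (hG q hq).2.2 x hx
    rw [← Finset.mul_sum, ← hS] at h3
    linarith

end Pool.Agent.R230.CK
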