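import Mathlib
import Pool.Agent.R230.CK.Step

/-!
The limit of the construction: a closed set, small over `[1/4, 2]` and large over `[1/16, 1/8]`,
which is a union of graphs of affine functions over `[0, 2]`, at most one for each slope.
-/

set_option autoImplicit false

open MeasureTheory Set Filter Topology

namespace Pool.Agent.R230.CK

lemma exists_small (T : Finset ℝ) : (∀ t ∈ T, 0 < t) → ∃ r > 0, ∀ t ∈ T, 2 * r < t := by
  classical
  induction T using Finset.induction_on with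
  | empty =>
    intro _
    exact ⟨1, one_pos, by simp⟩
  | insert a T ha ih =>
    intro h
    obtain ⟨r, h1, h2⟩ := ih fun t ht => h t (Finset.mem_insert_of_mem ht)
    have h3 := h a (Finset.mem_insert_self _ _)
    refine ⟨min r (a / 4), lt_min h1 (by linarith), ?_⟩
    intro t ht
    rcases Finset.mem_insert.1 ht with rfl | ht
    · have := min_le_right r (t / 4)
      linarith
    · have := min_le_left r (a / 4)
      have := h2 t ht
      linarith

lemma exists_sep (A : Finset Strip) (h : Set.InjOn Strip.s (A : Set Strip)) :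
    ∃ r > 0, ∀ q ∈ A, ∀ q' ∈ A, |q.s - q'.s| ≤ 2 * r → q = q' := by
  classical
  obtain ⟨r, hr, hr2⟩ := exists_small (((A ×ˢ A).filter (fun p => p.1 ≠ p.2)).image
    (fun p => |p.1.s - p.2.s|)) (by
      intro t ht
      obtain ⟨p, hp, rfl⟩ := Finset.mem_image.1 ht
      rw [Finset.mem_filter, Finset.mem_product] at hp
      apply abs_pos.2
      intro h0
      exact hp.2 (h (Finset.mem_coe.2 hp.1.1) (Finset.mem_coe.2 hp.1.2) (sub_eq_zero.1 h0)))
  refine ⟨r, hr, ?_⟩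
  intro q hq q' hq' hle
  by_contra hne
  have := hr2 |q.s - q'.s| (Finset.mem_image.2 ⟨(q, q'), Finset.mem_filter.2
    ⟨Finset.mem_product.2 ⟨hq, hq'⟩, hne⟩, rfl⟩)
  linarith

/-- the state of the construction -/
structure St where
  F : Finset Strip
  ρ : ℝ
  hρ : 0 < ρ
  hF : ∀ q ∈ F, q.s ∈ cantorSet ∧ q.a < q.b
  sep : ∀ q ∈ F, ∀ q' ∈ F, |q.s - q'.s| ≤ 2 * ρ → q = q'

lemma exists_next (A : St) {η : ℝ} (hη : 0 < η) : ∃ B : St, B.ρ ≤ A.ρ / 2 ∧
    (∀ q' ∈ B.F, q'.b - q'.a ≤ η ∧ ∃ q ∈ A.F, |q'.s - q.s| ≤ A.ρ / 2 ∧ Inside q' q) ∧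
    (∀ x ∈ Icc (1 / 16 : ℝ) (1 / 8), mu (sec A.F x) ≤ mu (sec B.F x) + η) ∧
    ∀ x ∈ Icc (1 / 4 : ℝ) 2, mu (sec B.F x) ≤ η := by
  obtain ⟨F', h1, h2, h3, h4⟩ := nextstep A.F A.hF (half_pos A.hρ) hη
  obtain ⟨r, hr, hsep⟩ := exists_sep F' h2
  refine ⟨⟨F', min r (A.ρ / 2), lt_min hr (half_pos A.hρ), fun q hq => ⟨(h1 q hq).1, (h1 q hq).2.1⟩,
    fun q hq q' hq' hle => hsep q hq q' hq' (hle.trans ?_)⟩, min_le_right _ _,
    fun q' hq' => ⟨(h1 q' hq').2.2.1, (h1 q' hq').2.2.2⟩, h3, h4⟩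
  have := min_le_left r (A.ρ / 2)
  linarith

/-- the starting state: one strip -/
noncomputable def st0 : St where
  F := {⟨0, 0, 1⟩}
  ρ := 1
  hρ := one_pos
  hF := by
    intro q hq
    rw [Finset.mem_singleton] at hq
    rw [hq]
    exact ⟨zero_mem_cantorSet, zero_lt_one⟩
  sep := by
    intro q hq q' hq' _
    rw [Finset.mem_singleton] at hq hq'
    rw [hq, hq']

noncomputable def eta (n : ℕ) : ℝ := (1 / 2) ^ (n + 2)

lemma eta_pos (n : ℕ) : 0 < eta n := by unfold eta; positivity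

/-- the sequence of states -/
noncomputable def sq : ℕ → St
  | 0 => st0
  | n + 1 => (exists_next (sq n) (eta_pos n)).choose

lemma sq_spec (n : ℕ) : (sq (n + 1)).ρ ≤ (sq n).ρ / 2 ∧
    (∀ q' ∈ (sq (n + 1)).F, q'.b - q'.a ≤ eta n ∧
      ∃ q ∈ (sq n).F, |q'.s - q.s| ≤ (sq n).ρ / 2 ∧ Inside q' q) ∧
    (∀ x ∈ Icc (1 / 16 : ℝ) (1 / 8), mu (sec (sq n).F x) ≤ mu (sec (sq (n + 1)).F x) + eta n) ∧
    ∀ x ∈ Icc (1 / 4 : ℝ) 2, mu (sec (sq (n + 1)).F x) ≤ eta n :=
  (exists_next (sq n) (eta_pos n)).choose_spec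

lemma lower (n : ℕ) {x : ℝ} (hx : x ∈ Icc (1 / 16 : ℝ) (1 / 8)) :
    1 / 2 + (1 / 2) ^ (n + 1) ≤ mu (sec (sq n).F x) := by
  induction n with
  | zero =>
    have h : sec (sq 0).F x = Icc (0 + 0 * x) (1 + 0 * x) := by
      change sec {⟨0, 0, 1⟩} x = _
      unfold sec Strip.sec
      simp
    rw [h, mu_Icc (by linarith)]
    norm_num
  | succ n ih =>
    have h1 := (sq_spec n).2.2.1 x hx
    have h2 : eta n = (1 / 2) ^ (n + 1 + 1) := rfl
    have h3 : (1 / 2 : ℝ) ^ (n + 1) = (1 / 2) ^ (n + 1 + 1) + (1 / 2) ^ (n + 1 + 1) := by ring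
    linarith

lemma sec_anti_succ (n : ℕ) {x : ℝ} (hx : x ∈ Icc (0 : ℝ) 2) :
    sec (sq (n + 1)).F x ⊆ sec (sq n).F x := by
  intro y hy
  obtain ⟨q', hq', h1, h2⟩ := mem_sec.1 hy
  obtain ⟨_, q, hq, _, h3⟩ := (sq_spec n).2.1 q' hq'
  have := h3 x hx
  exact mem_sec.2 ⟨q, hq, this.1.trans h1, h2.trans this.2⟩

lemma sec_anti {x : ℝ} (hx : x ∈ Icc (0 : ℝ) 2) : Antitone fun n => sec (sq n).F x :=
  antitone_nat_of_succ_le fun n => sec_anti_succ n hx

/-- the limit set -/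
def KK : Set (ℝ × ℝ) := {p | p.1 ∈ Icc (0 : ℝ) 2 ∧ ∀ n, p.2 ∈ sec (sq n).F p.1}

lemma measurableSet_KK : MeasurableSet KK := by
  have h : KK = (Prod.fst ⁻¹' Icc (0 : ℝ) 2) ∩ ⋂ n, ⋃ q ∈ (sq n).F,
      {p : ℝ × ℝ | q.a + q.s * p.1 ≤ p.2 ∧ p.2 ≤ q.b + q.s * p.1} := by
    ext p
    simp only [KK, mem_ofPred_eq, mem_inter_iff, mem_preimage, mem_iInter, mem_iUnion, mem_sec,
      exists_prop]
  rw [h]
  refine (measurable_fst measurableSet_Icc).inter (MeasurableSet.iInter fun n => ?_)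
  refine Finset.measurableSet_biUnion _ fun q _ => ?_
  apply IsClosed.measurableSet
  exact (isClosed_le (f := fun p : ℝ × ℝ => q.a + q.s * p.1) (g := fun p => p.2) (by fun_prop)
    (by fun_prop)).inter (isClosed_le (f := fun p : ℝ × ℝ => p.2) (g := fun p => q.b + q.s * p.1)
    (by fun_prop) (by fun_prop))

lemma null_part : volume (KK ∩ (Prod.fst ⁻¹' Icc (1 / 4 : ℝ) 2)) = 0 := by
  rw [Measure.volume_eq_prod, Measure.measure_prod_null
    (measurableSet_KK.inter (measurable_fst measurableSet_Icc))]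
  filter_upwards with x
  change volume _ = 0
  by_cases hx : x ∈ Icc (1 / 4 : ℝ) 2
  · rw [← nonpos_iff_eq_zero]
    have hlim : Tendsto (fun n => ENNReal.ofReal (eta n)) atTop (𝓝 0) := by
      rw [← ENNReal.ofReal_zero]
      apply ENNReal.tendsto_ofReal
      have := (tendsto_pow_atTop_nhds_zero_of_lt_one (r := (1 / 2 : ℝ)) (by norm_num) (by norm_num))
      exact (tendsto_add_atTop_iff_nat 2).2 this
    refine ge_of_tendsto' hlim fun n => ?_
    have h1 : Prod.mk x ⁻¹' (KK ∩ (Prod.fst ⁻¹' Icc (1 / 4 : ℝ) 2)) ⊆ sec (sq (n + 1)).F x :=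
      fun y hy => hy.1.2 (n + 1)
    refine (measure_mono h1).trans ?_
    rw [← ENNReal.ofReal_toReal (sec_lt_top (sq (n + 1)).F x).ne]
    exact ENNReal.ofReal_le_ofReal ((sq_spec n).2.2.2 x hx)
  · have : Prod.mk x ⁻¹' (KK ∩ (Prod.fst ⁻¹' Icc (1 / 4 : ℝ) 2)) = ∅ := by
      ext y
      simp only [mem_preimage, mem_inter_iff, mem_empty_iff_false, iff_false, not_and]
      intro _ h
      exact hx h
    rw [this, measure_empty]

lemma pos_part : 0 < volume (KK ∩ (Prod.fst ⁻¹' Icc (1 / 16 : ℝ) (1 / 8))) := by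
  rw [pos_iff_ne_zero]
  intro h0
  rw [Measure.volume_eq_prod, Measure.measure_prod_null
    (measurableSet_KK.inter (measurable_fst measurableSet_Icc))] at h0
  have hno : ∀ x ∈ Icc (1 / 16 : ℝ) (1 / 8),
      volume (Prod.mk x ⁻¹' (KK ∩ (Prod.fst ⁻¹' Icc (1 / 16 : ℝ) (1 / 8)))) ≠ 0 := by
    intro x hx
    have hx' : x ∈ Icc (0 : ℝ) 2 := ⟨by linarith [hx.1], by linarith [hx.2]⟩
    have h1 : Prod.mk x ⁻¹' (KK ∩ (Prod.fst ⁻¹' Icc (1 / 16 : ℝ) (1 / 8))) =
        ⋂ n, sec (sq n).F x := by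
      ext y
      simp only [mem_preimage, mem_inter_iff, mem_iInter]
      constructor
      · intro h
        exact h.1.2
      · intro h
        exact ⟨⟨hx', h⟩, hx⟩
    rw [h1, (sec_anti hx').measure_iInter (fun n => (measurableSet_sec _ x).nullMeasurableSet)
      ⟨0, (sec_lt_top _ x).ne⟩]
    apply ne_of_gt
    refine lt_of_lt_of_le (b := ENNReal.ofReal (1 / 2)) (by simp) (le_iInf fun n => ?_)
    rw [← ENNReal.ofReal_toReal (sec_lt_top (sq n).F x).ne]
    apply ENNReal.ofReal_le_ofReal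
    have := lower n hx
    have h3 : (0 : ℝ) < (1 / 2) ^ (n + 1) := by positivity
    have h4 : mu (sec (sq n).F x) = (volume (sec (sq n).F x)).toReal := rfl
    linarith
  have h2 : volume (Icc (1 / 16 : ℝ) (1 / 8)) = 0 := by
    refine measure_mono_null ?_ h0
    intro x hx
    exact hno x hx
  rw [Real.volume_Icc] at h2
  norm_num at h2

/-- the affine functions of the limit family -/
def LL (s c : ℝ) : Prop := s ∈ cantorSet ∧ ∀ n, ∃ q ∈ (sq n).F, |s - q.s| ≤ (sq n).ρ ∧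
  ∀ z ∈ Icc (0 : ℝ) 2, q.a + q.s * z ≤ c + s * z ∧ c + s * z ≤ q.b + q.s * z

lemma LL_mem {s c : ℝ} (h : LL s c) {z : ℝ} (hz : z ∈ Icc (0 : ℝ) 2) : (z, c + s * z) ∈ KK := by
  refine ⟨hz, fun n => ?_⟩
  obtain ⟨q, hq, _, h2⟩ := h.2 n
  exact mem_sec.2 ⟨q, hq, h2 z hz⟩

lemma LL_unique {s c c' : ℝ} (h : LL s c) (h' : LL s c') : c = c' := by
  have hle : ∀ n, |c - c'| ≤ eta n := by
    intro n
    obtain ⟨q, hq, h1, h2⟩ := h.2 (n + 1)
    obtain ⟨q', hq', h1', h2'⟩ := h'.2 (n + 1)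
    have hqq : q = q' := by
      apply (sq (n + 1)).sep q hq q' hq'
      have : q.s - q'.s = (s - q'.s) - (s - q.s) := by ring
      rw [this]
      refine (abs_sub _ _).trans ?_
      linarith
    subst hqq
    have e1 := h2 0 ⟨le_rfl, by norm_num⟩
    have e2 := h2' 0 ⟨le_rfl, by norm_num⟩
    have e3 := ((sq_spec n).2.1 q hq).1
    simp only [mul_zero, add_zero] at e1 e2
    rw [abs_le]
    constructor <;> linarith [e1.1, e1.2, e2.1, e2.2]
  have hlim : Tendsto eta atTop (𝓝 0) := by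
    have := (tendsto_pow_atTop_nhds_zero_of_lt_one (r := (1 / 2 : ℝ)) (by norm_num) (by norm_num))
    exact (tendsto_add_atTop_iff_nat 2).2 this
  have := ge_of_tendsto' hlim hle
  have h0 : |c - c'| = 0 := le_antisymm this (abs_nonneg _)
  exact sub_eq_zero.1 (abs_eq_zero.1 h0)

/-- every point of the limit set lies on a graph of the family -/
lemma exists_LL {p : ℝ × ℝ} (hp : p ∈ KK) : ∃ s, LL s (p.2 - s * p.1) := by
  set C : ℕ → Set ℝ := fun n => {s | s ∈ cantorSet ∧ ∃ q ∈ (sq n).F, |s - q.s| ≤ (sq n).ρ ∧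
    ∀ z ∈ Icc (0 : ℝ) 2, q.a + q.s * z ≤ (p.2 - s * p.1) + s * z ∧
      (p.2 - s * p.1) + s * z ≤ q.b + q.s * z} with hC
  have hclosed : ∀ n, IsClosed (C n) := by
    intro n
    have h : C n = cantorSet ∩ ⋃ q ∈ (sq n).F, ({s | |s - q.s| ≤ (sq n).ρ} ∩
        ⋂ z ∈ Icc (0 : ℝ) 2, ({s | q.a + q.s * z ≤ (p.2 - s * p.1) + s * z} ∩
          {s | (p.2 - s * p.1) + s * z ≤ q.b + q.s * z})) := by
      ext s
      simp only [hC, mem_ofPred_eq, mem_inter_iff, mem_iUnion, mem_iInter, exists_prop]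
    rw [h]
    refine isClosed_cantorSet.inter (isClosed_biUnion_finset fun q _ => ?_)
    refine (isClosed_le (by fun_prop) (by fun_prop)).inter (isClosed_biInter fun z _ => ?_)
    exact (isClosed_le (by fun_prop) (by fun_prop)).inter (isClosed_le (by fun_prop) (by fun_prop))
  have hanti : ∀ n, C (n + 1) ⊆ C n := by
    rintro n s ⟨hs, q', hq', h1, h2⟩
    obtain ⟨_, q, hq, h3, h4⟩ := (sq_spec n).2.1 q' hq'
    refine ⟨hs, q, hq, ?_, fun z hz => ⟨((h4 z hz).1).trans (h2 z hz).1, ((h2 z hz).2).trans (h4 z hz).2⟩⟩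
    have : s - q.s = (s - q'.s) + (q'.s - q.s) := by ring
    rw [this]
    refine (abs_add_le _ _).trans ?_
    linarith [(sq_spec n).1]
  have hne : ∀ n, (C n).Nonempty := by
    intro n
    obtain ⟨q, hq, h1, h2⟩ := mem_sec.1 (hp.2 n)
    refine ⟨q.s, ((sq n).hF q hq).1, q, hq, ?_, fun z _ => ?_⟩
    · rw [sub_self, abs_zero]
      exact (sq n).hρ.le
    · constructor <;> linarith
  have hcpt : IsCompact (C 0) := isCompact_cantorSet.of_isClosed_subset (hclosed 0) fun s hs => hs.1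
  obtain ⟨s, hs⟩ := IsCompact.nonempty_iInter_of_sequence_nonempty_isCompact_isClosed C hanti hne
    hcpt hclosed
  rw [mem_iInter] at hs
  exact ⟨s, (hs 0).1, fun n => (hs n).2⟩

end Pool.Agent.R230.CK
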